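import Mathlib
import Pool.Agent.H913Z.Perc.Link

set_option autoImplicit false

namespace Pool.Agent.Results.MP_e13933_pr.ACriticalSite

open MeasureTheory

/-- Two points of the integer lattice are adjacent when their Euclidean distance is one. -/
def Adjacent {d : ℕ} (x y : Fin d → ℤ) : Prop := ∑ i, (x i - y i) ^ 2 = 1

/-- The open cluster of `v` in the configuration `ω` (the set of open vertices): the vertices
joined to `v` by a path of open vertices; it is empty when `v` is closed. -/
def cluster {d : ℕ} (ω : Set (Fin d → ℤ)) (v : Fin d → ℤ) : Set (Fin d → ℤ) :=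
  {y | v ∈ ω ∧ Relation.ReflTransGen (fun a b => Adjacent a b ∧ a ∈ ω ∧ b ∈ ω) v y}

/-- Site percolation: every vertex is open with probability `p`, independently. -/
noncomputable def perc (d : ℕ) (p : unitInterval) : Measure (Set (Fin d → ℤ)) :=
  ProbabilityTheory.setBernoulli Set.univ p

/-- The probability that the origin lies in an infinite open cluster. -/
noncomputable def theta (d : ℕ) (p : unitInterval) : ENNReal :=
  perc d p {ω | (cluster ω 0).Infinite}

/-- The critical parameter. -/
noncomputable def pc (d : ℕ) : unitInterval := sSup {p | theta d p = 0}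

/-- Critical site percolation on the lattice of dimension at least two has no infinite cluster. -/
theorem result (d : ℕ) (hd : 2 ≤ d) :
    theta d (pc d) = 0 ∧ perc d (pc d) {ω | ∃ v, (cluster ω v).Infinite} = 0 := by
  have e : ∀ (ω : Set (Fin d → ℤ)) (v : Fin d → ℤ),
      cluster ω v = H913Z.Perc.O (H913Z.Perc.zd d) {v} ω := by
    intro ω v
    ext y
    constructor
    · rintro ⟨h1, h2⟩
      have h3 : H913Z.Perc.R (H913Z.Perc.zd d) ω v y := h2
      exact ⟨h3.cases.elim (fun e => e ▸ h1) (fun e => e.2), H913Z.Perc.Rs_singleton.2 h3⟩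
    · rintro ⟨h1, h2⟩
      have h3 := H913Z.Perc.Rs_singleton.1 h2
      exact ⟨h3.cases.elim (fun e => e ▸ h1) (fun e => e.1), h3⟩
  have h : ∀ v, perc d (pc d) {ω | (cluster ω v).Infinite} = 0 := by
    intro v
    simp only [pc, theta, perc, e]
    exact H913Z.Perc.critical hd v
  refine ⟨h 0, ?_⟩
  rw [Set.ofPred_exists]
  exact measure_iUnion_null h

end Pool.Agent.Results.MP_e13933_pr.ACriticalSite
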